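import Pool.Agent.Helper72.BP.Defs

/-!
PROJECT BP, interface of block A (algebra): definitions only (no sorry). See plan_BP.md, section 4.

`AOut` is the output: ranks `rk i`, degrees `deg i`, `0 <= i <= L`, real matrices `M i : C_(i+1) → C_i` over `R[Y,t]` for `i <= n`, complex matrices `H i : C_(i+1) → C_i`
over `C[y]` for `i < L`, with `H i` = pull back of `M i` under `Y ↦ y, t ↦ σ(y)` for `i <= n`.

Spots: exactness at the spot `i` means `ker (C_i → C_(i-1)) = im (C_(i+1) → C_i)`.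
-/

set_option autoImplicit false

namespace Pool.Agent.Helper72.BP

open MvPolynomial

/-- A real matrix of polynomials evaluated at a point of an algebra. -/
noncomputable def evM {σ : Type} {a b : ℕ} {R : Type*} [CommRing R] [Algebra ℝ R] (w : σ → R)
    (M : Matrix (Fin a) (Fin b) (MvPolynomial σ ℝ)) : Matrix (Fin a) (Fin b) R :=
  M.map (aeval w)

/-- Exactness of `B` followed by `A` in the middle. -/
def Exact2 {a b c : ℕ} {K : Type*} [CommRing K] (A : Matrix (Fin a) (Fin b) K) (B : Matrix (Fin b) (Fin c) K) :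
    Prop :=
  ∀ v : Fin b → K, A.mulVec v = 0 ↔ ∃ u : Fin c → K, B.mulVec u = v

/-- The output of the algebra block. -/
structure AOut {p : ℕ} {κ τ : Type} [Fintype κ] [Fintype τ] (F : MvPolynomial (Var (Ix p κ) τ) ℝ)
    (J : Ideal (MvPolynomial (Var (Ix p κ) τ) ℝ)) (σ : τ → MvPolynomial (Ix p κ) ℂ) where
  n : ℕ
  L : ℕ
  n_pos : 1 ≤ n
  n_lt : n + 1 < L
  rk : ℕ → ℕ
  deg : (i : ℕ) → Fin (rk i) → ℕ
  M : (i : ℕ) → Matrix (Fin (rk i)) (Fin (rk (i + 1))) (MvPolynomial (Var (Ix p κ) τ) ℝ)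
  H : (i : ℕ) → Matrix (Fin (rk i)) (Fin (rk (i + 1))) (MvPolynomial (Ix p κ) ℂ)
  /-- homogeneity, in the form of the sign rule. -/
  M_hom : ∀ i a b (c : ℝ) (w : Var (Ix p κ) τ → ℝ), c ≠ 0 →
    aeval (fun x => c ^ wt x * w x) (M i a b) * c ^ deg i a = c ^ deg (i + 1) b * aeval w (M i a b)
  H_hom : ∀ i a b (c : ℂ) (y : Ix p κ → ℂ), c ≠ 0 →
    eval (c • y) (H i a b) * c ^ deg i a = c ^ deg (i + 1) b * eval y (H i a b)
  H_eq : ∀ i ≤ n, ∀ a b, H i a b = aeval (Sum.elim X σ) (M i a b)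
  /-- (X1): exactness at the spot `n` at regular points of the cone. -/
  X1 : ∀ w : Var (Ix p κ) τ → ℝ, aeval w F = 0 → (∃ x, aeval w (pderiv x F) ≠ 0) →
    ∀ i, i + 1 = n → Exact2 (evM (fun x => (w x : ℂ)) (M i)) (evM (fun x => (w x : ℂ)) (M (i + 1)))
  /-- (X2): exactness at the spots `0, .., n` off the zero set of `J`. -/
  X2s : ∀ w : Var (Ix p κ) τ → ℝ, aeval w F = 0 → (∃ f ∈ J, aeval w f ≠ 0) →
    ∀ v : Fin (rk 0) → ℂ, ∃ u, (evM (fun x => (w x : ℂ)) (M 0)).mulVec u = v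
  X2 : ∀ w : Var (Ix p κ) τ → ℝ, aeval w F = 0 → (∃ f ∈ J, aeval w f ≠ 0) →
    ∀ i < n, Exact2 (evM (fun x => (w x : ℂ)) (M i)) (evM (fun x => (w x : ℂ)) (M (i + 1)))
  /-- (X3): exactness at the spots `n + 1, .., L - 1`, and injectivity at the spot `L`, at complex points `y ≠ 0`. -/
  X3 : ∀ y : Ix p κ → ℂ, y ≠ 0 → ∀ i, n ≤ i → i + 1 < L →
    Exact2 ((H i).map (eval y)) ((H (i + 1)).map (eval y))
  X3i : ∀ y : Ix p κ → ℂ, y ≠ 0 → ∀ i, i + 1 = L → ∀ u, ((H i).map (eval y)).mulVec u = 0 → u = 0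
  /-- (P): the number `a(-1)`. -/
  P : ∃ c : ℤ, Odd c ∧ ∑ i ∈ Finset.range (L + 1), (-1 : ℤ) ^ i * ∑ j, (-1 : ℤ) ^ deg i j = 2 ^ p * c

end Pool.Agent.Helper72.BP
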