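import Mathlib

/-!
PROJECT BP (MP_1cfd37_ag), abstract tube. Definitions shared by the blocks A, C, G, T (plan: plan_BP.md in the store).

Index types: `Ix p κ = Fin (p+1) ⊕ κ` for the coordinates `y` of `E`; `Mu = Ix × Ix` for the quadratic monomials `m_(i,j) = y_i y_j`;
`Qx = Mu ⊕ (Mu × Mu) ⊕ (Mu × Mu)` for the squares `m_a`, `m_a + m_b`, `m_a - m_b`; `Tx = Qx ⊕ (Fin r ⊕ Fin p)` for the coordinates `t`.
`Var = Ix ⊕ Tx`, weights 1 and 2.
-/

set_option autoImplicit false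

namespace Pool.Agent.Helper72.BP

open MvPolynomial

/-- Index type of the coordinates `y`. -/
abbrev Ix (p : ℕ) (κ : Type) : Type := Fin (p + 1) ⊕ κ

/-- Index type of the quadratic monomials. -/
abbrev Mu (p : ℕ) (κ : Type) : Type := Ix p κ × Ix p κ

/-- Index type of the squares. -/
abbrev Qx (p : ℕ) (κ : Type) : Type := Mu p κ ⊕ ((Mu p κ × Mu p κ) ⊕ (Mu p κ × Mu p κ))

/-- Index type of the coordinates `t`. -/
abbrev Tx (p r : ℕ) (κ : Type) : Type := Qx p κ ⊕ (Fin r ⊕ Fin p)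

instance instDMu (p : ℕ) (κ : Type) [DecidableEq κ] : DecidableEq (Mu p κ) := inferInstance
instance instDQ (p : ℕ) (κ : Type) [DecidableEq κ] : DecidableEq (Qx p κ) := instDecidableEqSum
instance instDT (p r : ℕ) (κ : Type) [DecidableEq κ] : DecidableEq (Tx p r κ) := instDecidableEqSum

/-- All variables `(Y, t)`. -/
abbrev Var (ι τ : Type) : Type := ι ⊕ τ

/-- The weights: `Y` has weight `1` and `t` has weight `2`. -/
def wt {ι τ : Type} : Var ι τ → ℕ := Sum.elim (fun _ => 1) (fun _ => 2)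

/-- The quadratic form of a real matrix on `R^ι`, `R` a real algebra. -/
noncomputable def qf {ι : Type} [Fintype ι] {R : Type*} [CommRing R] [Algebra ℝ R] (A : Matrix ι ι ℝ)
    (y : ι → R) : R := ∑ i, ∑ j, algebraMap ℝ R (A i j) * y i * y j

/-- `sum y_i^2`. -/
def nsq {ι : Type} [Fintype ι] {R : Type*} [CommRing R] (y : ι → R) : R := ∑ i, y i ^ 2

/-- The equation of the tube: `|t|^2 + sum_l g_l(y)^2 - ε |y|^4`. -/
noncomputable def Ffun {ι τ : Type} [Fintype ι] [Fintype τ] {r : ℕ} {R : Type*} [CommRing R] [Algebra ℝ R]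
    (G : Fin r → Matrix ι ι ℝ) (ε : ℝ) (y : ι → R) (t : τ → R) : R :=
  nsq t + ∑ l, qf (G l) y ^ 2 - algebraMap ℝ R ε * nsq y ^ 2

/-- The same as a polynomial. -/
noncomputable def Fpol {ι τ : Type} [Fintype ι] [Fintype τ] {r : ℕ} (G : Fin r → Matrix ι ι ℝ) (ε : ℝ) :
    MvPolynomial (Var ι τ) ℝ :=
  Ffun G ε (fun i => X (Sum.inl i)) (fun s => X (Sum.inr s))

/-- The coefficients `ρ_ab(γ)` of the perturbation. -/
noncomputable def rho {ι : Type} [Fintype ι] [DecidableEq ι] {r : ℕ} (G : Fin r → Matrix ι ι ℝ) (ε : ℝ)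
    (γ : Matrix ι ι ℝ) (a b : ι × ι) : ℝ :=
  ε * ((γ.transpose * γ) a.1 a.2 * (γ.transpose * γ) b.1 b.2 -
      (1 : Matrix ι ι ℝ) a.1 a.2 * (1 : Matrix ι ι ℝ) b.1 b.2) +
    ∑ l, (G l a.1 a.2 * G l b.1 b.2 -
      (γ.transpose * G l * γ) a.1 a.2 * (γ.transpose * G l * γ) b.1 b.2)

/-- `δ = ε / (8 |Mu|)`. -/
noncomputable def dl (p : ℕ) (κ : Type) [Fintype κ] (ε : ℝ) : ℝ := ε / (8 * Fintype.card (Mu p κ))

/-- The quadratic monomial. -/
def mon {ι : Type} {R : Type*} [CommRing R] (y : ι → R) (a : ι × ι) : R := y a.1 * y a.2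

/-- The real factors `√c_j(γ)`. -/
noncomputable def sq {p r : ℕ} {κ : Type} [Fintype κ] [DecidableEq κ]
    (G : Fin r → Matrix (Ix p κ) (Ix p κ) ℝ) (ε : ℝ) (γ : Matrix (Ix p κ) (Ix p κ) ℝ) : Qx p κ → ℝ
  | Sum.inl _ => Real.sqrt (ε / 2)
  | Sum.inr (Sum.inl ab) => Real.sqrt (dl p κ ε + rho G ε γ ab.1 ab.2 / 4)
  | Sum.inr (Sum.inr ab) => Real.sqrt (dl p κ ε - rho G ε γ ab.1 ab.2 / 4)

/-- The quadratic forms `n_j(y)`. -/
def nj {p : ℕ} {κ : Type} {R : Type*} [CommRing R] (y : Ix p κ → R) : Qx p κ → R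
  | Sum.inl a => mon y a
  | Sum.inr (Sum.inl ab) => mon y ab.1 + mon y ab.2
  | Sum.inr (Sum.inr ab) => mon y ab.1 - mon y ab.2

/-- The section before the rotation: `(√c_j(γ) n_j(y), i g_l(y), 0)`; complex version. -/
noncomputable def uC {p r : ℕ} {κ : Type} [Fintype κ] [DecidableEq κ] {R : Type*} [CommRing R] [Algebra ℂ R]
    [Algebra ℝ R] (G : Fin r → Matrix (Ix p κ) (Ix p κ) ℝ) (ε : ℝ) (γ : Matrix (Ix p κ) (Ix p κ) ℝ)
    (y : Ix p κ → R) : Tx p r κ → R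
  | Sum.inl j => algebraMap ℝ R (sq G ε γ j) * nj y j
  | Sum.inr (Sum.inl l) => algebraMap ℂ R Complex.I * qf (G l) y
  | Sum.inr (Sum.inr _) => 0

/-- The section before the rotation where `g = 0`; real version. -/
noncomputable def uR {p r : ℕ} {κ : Type} [Fintype κ] [DecidableEq κ] {R : Type*} [CommRing R]
    [Algebra ℝ R] (G : Fin r → Matrix (Ix p κ) (Ix p κ) ℝ) (ε : ℝ) (γ : Matrix (Ix p κ) (Ix p κ) ℝ)
    (y : Ix p κ → R) : Tx p r κ → R
  | Sum.inl j => algebraMap ℝ R (sq G ε γ j) * nj y j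
  | Sum.inr _ => 0

/-- The Cayley transform of a skew matrix. -/
noncomputable def cay {τ : Type} [Fintype τ] [DecidableEq τ] (W : Matrix τ τ ℝ) : Matrix τ τ ℝ :=
  (1 - W) * (1 + W)⁻¹

/-- A real matrix acting on `R^τ`, `R` a real algebra. -/
noncomputable def act {ι τ : Type} [Fintype τ] {R : Type*} [CommRing R] [Algebra ℝ R] (A : Matrix ι τ ℝ) (u : τ → R) :
    ι → R := fun s => ∑ x, algebraMap ℝ R (A s x) * u x

/-- The `t`-part of the section `S_(γ,W)`; complex version. -/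
noncomputable def tC {p r : ℕ} {κ : Type} [Fintype κ] [DecidableEq κ] {R : Type*} [CommRing R] [Algebra ℂ R]
    [Algebra ℝ R] (G : Fin r → Matrix (Ix p κ) (Ix p κ) ℝ) (ε : ℝ) (γ : Matrix (Ix p κ) (Ix p κ) ℝ)
    (W : Matrix (Tx p r κ) (Tx p r κ) ℝ) (y : Ix p κ → R) : Tx p r κ → R :=
  act (cay W) (uC G ε γ y)

/-- The `t`-part of the section `S_(γ,W)` where `g = 0`; real version. -/
noncomputable def tR {p r : ℕ} {κ : Type} [Fintype κ] [DecidableEq κ] {R : Type*} [CommRing R]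
    [Algebra ℝ R] (G : Fin r → Matrix (Ix p κ) (Ix p κ) ℝ) (ε : ℝ) (γ : Matrix (Ix p κ) (Ix p κ) ℝ)
    (W : Matrix (Tx p r κ) (Tx p r κ) ℝ) (y : Ix p κ → R) : Tx p r κ → R :=
  act (cay W) (uR G ε γ y)

/-- The inclusion of `R^(p+1)`. -/
def inc {p : ℕ} {κ : Type} {R : Type*} [CommRing R] (x : Fin (p + 1) → R) : Ix p κ → R :=
  Sum.elim x (fun _ => 0)

/-- The abstract tube: the matrices `G_l`, the map `q` (for us `z ↦ z zᵀ`) and the radius `ε`. -/
structure IsTube {p m r : ℕ} {κ : Type} [Fintype κ] (G : Fin r → Matrix (Ix p κ) (Ix p κ) ℝ)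
    (q : (Fin m → ℂ) → Ix p κ → ℝ) (ε : ℝ) : Prop where
  symm : ∀ l i j, G l i j = G l j i
  lin : ∀ l (i j : Fin (p + 1)), G l (Sum.inl i) (Sum.inl j) = 0
  g_q : ∀ l z, qf (G l) (q z) = 0
  q_cont : Continuous q
  q_I : ∀ z, q (fun a => Complex.I * z a) = -q z
  q_norm : ∀ z, nsq (q z) = (∑ a, ‖z a‖ ^ 2) ^ 2
  pos : 0 < ε
  /-- `ε` is a regular value of `sum_l g_l^2` on the unit sphere. -/
  reg : ∀ y : Ix p κ → ℝ, nsq y = 1 → ∑ l, qf (G l) y ^ 2 = ε →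
    ∃ v : Ix p κ → ℝ, ∑ i, y i * v i = 0 ∧
      ∑ l, qf (G l) y * ∑ i, ∑ j, G l i j * y i * v j ≠ 0

/-- Zeros of an ideal at a point of an algebra. -/
def IsZero {ι τ : Type} {R : Type*} [CommRing R] [Algebra ℝ R] (J : Ideal (MvPolynomial (Var ι τ) ℝ))
    (y : ι → R) (t : τ → R) : Prop := ∀ f ∈ J, aeval (Sum.elim y t) f = 0

/-- The homogeneous ideal of a set of points of the cone. -/
def coneIdeal {ι τ : Type} (Z : Set ((ι → ℝ) × (τ → ℝ))) : Ideal (MvPolynomial (Var ι τ) ℝ) where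
  carrier := {f | ∀ x ∈ Z, ∀ c : ℝ, aeval (Sum.elim (c • x.1) (c ^ 2 • x.2)) f = 0}
  add_mem' := by
    intro a b ha hb x hx c
    rw [map_add, ha x hx c, hb x hx c, add_zero]
  zero_mem' := by
    intro x _ c
    rw [map_zero]
  smul_mem' := by
    intro a b hb x hx c
    rw [smul_eq_mul, map_mul, hb x hx c, mul_zero]

end Pool.Agent.Helper72.BP
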