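import Pool.Agent.Helper72.BP.Defs

/-!
PROJECT BP: definitions shared by the blocks G, T, V and the obstruction theorem (no sorry in this file): gradients, the double cover `V~`, parameters near the base point;
the properties `OnePoint`, `PushH`; the embedding of the tube; what block T needs to know about `M`.
-/

set_option autoImplicit false

namespace Pool.Agent.Helper72.BP

open MvPolynomial

/-- The gradient of a polynomial at a real point. -/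
noncomputable def grad {σ : Type} (w : σ → ℝ) (f : MvPolynomial σ ℝ) : σ → ℝ := fun x => aeval w (pderiv x f)

/-- The points of the double cover `V~` of the tube. -/
def Vt {ι τ : Type} [Fintype ι] [Fintype τ] {r : ℕ} (G : Fin r → Matrix ι ι ℝ) (ε : ℝ) :
    Set ((ι → ℝ) × (τ → ℝ)) := {x | nsq x.1 = 1 ∧ Ffun G ε x.1 x.2 = 0}

/-- Parameters near the base point. -/
def Near {ι τ : Type} [DecidableEq ι] (δ : ℝ) (γ : Matrix ι ι ℝ) (W : Matrix τ τ ℝ) : Prop :=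
  (∀ i j, |γ i j - (1 : Matrix ι ι ℝ) i j| < δ) ∧ (∀ i j, |W i j| < δ) ∧ W.transpose = -W

/-- The section of `P^p` meets the zero set of `J` (off the zero set of `I`) in exactly one real point, transversally. -/
def OnePoint {p r : ℕ} {κ : Type} [Fintype κ] [DecidableEq κ] (G : Fin r → Matrix (Ix p κ) (Ix p κ) ℝ) (ε : ℝ)
    (J I : Ideal (MvPolynomial (Var (Ix p κ) (Tx p r κ)) ℝ)) (γ : Matrix (Ix p κ) (Ix p κ) ℝ)
    (W : Matrix (Tx p r κ) (Tx p r κ) ℝ) : Prop :=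
  ∃ ξ : Fin (p + 1) → ℝ, ξ ≠ 0 ∧ IsZero J (act γ (inc ξ)) (tR G ε γ W (inc ξ)) ∧
    (∀ x : Fin (p + 1) → ℝ, IsZero J (act γ (inc x)) (tR G ε γ W (inc x)) →
      ¬ IsZero I (act γ (inc x)) (tR G ε γ W (inc x)) → ∃ c : ℝ, x = c • ξ) ∧
    ∃ f : Fin p → MvPolynomial (Var (Ix p κ) (Tx p r κ)) ℝ, (∀ j, f j ∈ J) ∧
      (∀ h ∈ J, ∃ d : MvPolynomial (Var (Ix p κ) (Tx p r κ)) ℝ,
        aeval (Sum.elim (act γ (inc ξ)) (tR G ε γ W (inc ξ)) : Var (Ix p κ) (Tx p r κ) → ℝ) d ≠ 0 ∧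
          d * h ∈ Ideal.span (insert (Fpol G ε) (Set.range f))) ∧
      LinearIndependent ℝ (fun j : Fin p => fun a : Fin (p + 1) =>
        eval ξ (pderiv a (aeval (Sum.elim (act γ (inc X)) (tR G ε γ W (inc X)) :
          Var (Ix p κ) (Tx p r κ) → MvPolynomial (Fin (p + 1)) ℝ) (f j))))

/-- The sphere. -/
def Sph (m : ℕ) : Set (Fin m → ℂ) := {z | ∑ i, ‖z i‖ ^ 2 = 1}

/-- The homotopy from the section over `q` to the complement of the zero set of `J`. -/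
def PushH {p m r : ℕ} {κ : Type} [Fintype κ] [DecidableEq κ] (G : Fin r → Matrix (Ix p κ) (Ix p κ) ℝ)
    (q : (Fin m → ℂ) → Ix p κ → ℝ) (ε : ℝ)
    (J : Ideal (MvPolynomial (Var (Ix p κ) (Tx p r κ)) ℝ)) (γ : Matrix (Ix p κ) (Ix p κ) ℝ)
    (W : Matrix (Tx p r κ) (Tx p r κ) ℝ) : Prop :=
  ∃ H : (Fin m → ℂ) → ℝ → (Ix p κ → ℝ) × (Tx p r κ → ℝ),
    ContinuousOn (fun x : (Fin m → ℂ) × ℝ => H x.1 x.2) (Sph m ×ˢ Set.Icc 0 1) ∧
    (∀ z ∈ Sph m, ∀ s ∈ Set.Icc (0 : ℝ) 1, H z s ∈ Vt G ε) ∧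
    (∀ z ∈ Sph m, ∀ s ∈ Set.Icc (0 : ℝ) 1, H (fun a => Complex.I * z a) s = (-(H z s).1, (H z s).2)) ∧
    (∀ z ∈ Sph m, ∃ c : ℝ, c ≠ 0 ∧ H z 0 = (c • act γ (q z), c ^ 2 • tR G ε γ W (q z))) ∧
    (∀ z ∈ Sph m, ∃ f ∈ J, aeval (Sum.elim (H z 1).1 (H z 1).2 : Var (Ix p κ) (Tx p r κ) → ℝ) f ≠ 0)

/-- Index type of the ambient space of `V`. -/
abbrev Amb (ι τ : Type) : Type := (ι × ι) ⊕ τ

/-- The embedding `([y], t) ↦ (y yᵀ, t)`. -/
def emb {ι τ : Type} (x : (ι → ℝ) × (τ → ℝ)) : Amb ι τ → ℝ :=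
  Sum.elim (fun a => x.1 a.1 * x.1 a.2) x.2

/-- The tube as a subset of `R^((ι × ι) ⊕ τ)`. -/
def Vemb {ι τ : Type} [Fintype ι] [Fintype τ] {r : ℕ} (G : Fin r → Matrix ι ι ℝ) (ε : ℝ) : Set (Amb ι τ → ℝ) :=
  emb '' Vt G ε

/-- The double cover of a subset of the tube. -/
def lift {ι τ : Type} [Fintype ι] (Z' : Set (Amb ι τ → ℝ)) : Set ((ι → ℝ) × (τ → ℝ)) :=
  {x | nsq x.1 = 1 ∧ emb x ∈ Z'}

/-- The base section `S(y) = (y, √c_j n_j(y), 0)`, `|y| = 1`, `g(y) = 0`. -/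
noncomputable def S0 {p r : ℕ} {κ : Type} [Fintype κ] [DecidableEq κ] (G : Fin r → Matrix (Ix p κ) (Ix p κ) ℝ)
    (ε : ℝ) (y : Ix p κ → ℝ) : (Ix p κ → ℝ) × (Tx p r κ → ℝ) := (y, tR G ε 1 0 y)

/-- The linear function `Λ_j(Y) = Y_(j+1,0) + sum_k a_jk Y_(k,0)`. -/
def Lam {p : ℕ} {κ τ : Type} [Fintype κ] (a : Fin p → κ → ℝ) (j : Fin p) (v : Amb (Ix p κ) τ → ℝ) : ℝ :=
  v (Sum.inl (Sum.inl j.succ, Sum.inl 0)) + ∑ k, a j k * v (Sum.inl (Sum.inr k, Sum.inl 0))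

/-- The base point `e_0`. -/
def e0 {p : ℕ} : Fin (p + 1) → ℝ := fun i => if i = 0 then 1 else 0

/-- What block T needs to know about `M`. -/
structure IsM {p m r : ℕ} {κ : Type} [Fintype κ] [DecidableEq κ] (hp : 0 < p) (G : Fin r → Matrix (Ix p κ) (Ix p κ) ℝ)
    (q : (Fin m → ℂ) → Ix p κ → ℝ) (ε : ℝ) (a : Fin p → κ → ℝ) (M : Set (Amb (Ix p κ) (Tx p r κ) → ℝ)) : Prop where
  compact : IsCompact M
  sub : M ⊆ Vemb G ε
  /-- `M` contains the section over `q`. -/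
  q_mem : ∀ z ∈ Sph m, emb (S0 G ε (q z)) ∈ M
  /-- near this section `t''_1 = 0` on `M`. -/
  q_near : ∃ ρ > 0, ∀ x ∈ M, ∀ z ∈ Sph m, dist x (emb (S0 G ε (q z))) < ρ →
    x (Sum.inr (Sum.inr (Sum.inr ⟨0, hp⟩))) = 0
  /-- near the base point `M` is the zero set of `Λ`. -/
  e_near : ∃ ρ > 0, ∀ x ∈ Vemb G ε, dist x (emb (S0 G ε (inc e0))) < ρ → (x ∈ M ↔ ∀ j, Lam a j x = 0)
  /-- the section over `P^p` meets `M` only at the base point. -/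
  e_only : ∀ x : Fin (p + 1) → ℝ, nsq x = 1 → emb (S0 G ε (inc x)) ∈ M → x = e0 ∨ x = -e0

end Pool.Agent.Helper72.BP
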