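import Pool.Agent.Helper72.BP.IfT
import Pool.Agent.Helper48.BPF.SFinal
import Pool.Agent.Helper6.BP.VMain

/-!
PROJECT BP: final assembly. `vMain` is the output of the blocks V (helper6) and F (helper9, helper48).
-/

set_option autoImplicit false

namespace Pool.Agent.Helper72.BP

open MvPolynomial
open Pool.Agent.Helper79.BP
open scoped ContDiff

/-- Output of the blocks V and F. -/
theorem vMain (p : ℕ) (hp : 2 ≤ p) :
    ∃ (κ : Type) (_ : Fintype κ) (_ : DecidableEq κ) (r : ℕ) (G : Fin r → Matrix (Ix p κ) (Ix p κ) ℝ)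
      (q : (Fin (2 * p + 1) → ℂ) → Ix p κ → ℝ) (ε : ℝ) (a : Fin p → κ → ℝ)
      (M : Set (Amb (Ix p κ) (Tx p r κ) → ℝ)) (d : ℕ),
      IsTube G q ε ∧ IsM (by omega : 0 < p) G q ε a M ∧
      d + p + 2 = Fintype.card (Ix p κ) + Fintype.card (Tx p r κ) ∧ IsCNV (d + p) (Vemb G ε : Set (Amb (Ix p κ) (Tx p r κ) → ℝ)) ∧
      ∃ (hc : IsCompact M) (hs : IsSubmfd d M) (hMV : M ⊆ Vemb G ε), TrivNormal p (Vemb G ε) M ∧
        AlgClass (incl (Vemb G ε) M d hc hs hMV) :=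
  Pool.Agent.Helper6.BP.vMain_of p hp (Pool.Agent.Helper48.BPF.fOut p hp)

/-- THE RESULT. -/
theorem notB (p : ℕ) (hp : 2 ≤ p) : ¬ B p := by
  intro hB
  obtain ⟨κ, _, _, r, G, q, ε, a, M, d, hT, hM, hd, hV, hc, hs, hMV, hN, hA⟩ := vMain p hp
  have hE := hB _ d _ M hV hc hs hMV hN hA
  obtain ⟨ε1, hε1, h1⟩ := tOne (by omega) G q ε hT a M hM d hd
  obtain ⟨ε2, hε2, h2⟩ := tPush (by omega) G q ε hT a M hM d hd
  obtain ⟨φ, hφ, hclose, hφV, hφ0, hNZ⟩ := hE 1 (min ε1 ε2) (lt_min hε1 hε2)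
  have hφ1 : ContDiff ℝ 1 φ := hφ.of_le (by exact_mod_cast le_top)
  have hd0 : ∀ t ∈ Set.Icc (0 : ℝ) 1, ∀ x, ‖φ (t, x) - x‖ ≤ min ε1 ε2 := by
    intro t ht x
    have h := hclose t ht x 0 (by omega)
    rwa [norm_iteratedFDeriv_zero] at h
  have hsl : ∀ t, ContDiff ℝ 1 (fun x => φ (t, x)) := fun t => hφ1.comp (contDiff_const.prodMk contDiff_id)
  have hd1 : ∀ t ∈ Set.Icc (0 : ℝ) 1, ∀ x, ‖fderiv ℝ (fun y => φ (t, y) - y) x‖ ≤ min ε1 ε2 := by
    intro t ht x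
    have h := hclose t ht x 1 (le_refl _)
    rwa [norm_iteratedFDeriv_one] at h
  have hdiff : ∀ t, Differentiable ℝ (fun y => φ (t, y) - y) := fun t =>
    ((hsl t).differentiable one_ne_zero).sub differentiable_id
  have hlip : ∀ t ∈ Set.Icc (0 : ℝ) 1, ∀ x y,
      ‖(φ (t, x) - x) - (φ (t, y) - y)‖ ≤ min ε1 ε2 * ‖x - y‖ := by
    intro t ht x y
    exact Convex.norm_image_sub_le_of_norm_fderiv_le (fun z _ => (hdiff t).differentiableAt)
      (fun z _ => hd1 t ht z) convex_univ (Set.mem_univ y) (Set.mem_univ x)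
  have h01 : (1 : ℝ) ∈ Set.Icc (0 : ℝ) 1 := ⟨zero_le_one, le_refl _⟩
  set Z' : Set (Amb (Ix p κ) (Tx p r κ) → ℝ) := (fun x => φ (1, x)) '' M with hZ'
  have hZV : Z' ⊆ Vemb G ε := by
    rintro _ ⟨x, hx, rfl⟩
    exact hφV 1 h01 x hx
  obtain ⟨I, hI1, hI2, hI3⟩ := t4_I G q ε hT d hd Z' hZV hNZ
  obtain ⟨δ1, hδ1, hO⟩ := h1 (fun x => φ (1, x)) (hsl 1) (fun x => (hd0 1 h01 x).trans (min_le_left _ _))
    (by
      intro x
      have h3 : fderiv ℝ (fun x => φ (1, x)) x - ContinuousLinearMap.id ℝ _ =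
          fderiv ℝ (fun y => φ (1, y) - y) x := by
        rw [fderiv_fun_sub ((hsl 1).differentiable one_ne_zero).differentiableAt differentiableAt_fun_id, fderiv_fun_id]
      rw [h3]
      exact (hd1 1 h01 x).trans (min_le_left _ _))
    (fun x hx => hφV 1 h01 x hx) hNZ I hI3 hI1
  obtain ⟨δ2, hδ2, hP⟩ := h2 φ hφ1 (fun t ht x => (hd0 t ht x).trans (min_le_right _ _))
    (fun t ht x y => (hlip t ht x y).trans (mul_le_mul_of_nonneg_right (min_le_right _ _) (norm_nonneg _)))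
    hφV hφ0 hNZ
  have hmono : ∀ {a b : ℝ} {γ : Matrix (Ix p κ) (Ix p κ) ℝ} {W : Matrix (Tx p r κ) (Tx p r κ) ℝ}, a ≤ b →
      Near a γ W → Near b γ W := fun hab h =>
    ⟨fun i j => (h.1 i j).trans_le hab, fun i j => (h.2.1 i j).trans_le hab, h.2.2⟩
  have hm := obs (by omega) G q ε hT (lift Z') (t4_sub G q ε hT d hd Z' hZV hNZ)
    (fun x hx => by
      obtain ⟨f, hf, hl, -⟩ := t4_reg G q ε hT d hd Z' hZV hNZ x hx
      exact ⟨f, hf, hl⟩) I hI1 hI2 (min δ1 δ2) (lt_min hδ1 hδ2)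
    (fun γ W h => hO γ W (hmono (min_le_left _ _) h)) (fun γ W h => hP γ W (hmono (min_le_right _ _) h))
  omega

end Pool.Agent.Helper72.BP
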