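import Pool.Agent.Helper72.BP.IfADefs
import Pool.Agent.Helper1.BP.AMain

/-!
PROJECT BP, interface of block A (algebra). Owner helper1. Definitions (evM, Exact2, AOut): IfADefs.lean.
-/

set_option autoImplicit false

namespace Pool.Agent.Helper72.BP

open MvPolynomial

/-- BLOCK A. -/
theorem aMain {p : ℕ} (hp : 1 ≤ p) {κ τ : Type} [Fintype κ] [DecidableEq κ] [Fintype τ] [DecidableEq τ]
    (F : MvPolynomial (Var (Ix p κ) τ) ℝ) (hF : IsWeightedHomogeneous (wt : Var (Ix p κ) τ → ℕ) F 4)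
    (J : Ideal (MvPolynomial (Var (Ix p κ) τ) ℝ)) (hFJ : F ∈ J)
    (hJ : ∀ f ∈ J, ∀ d, weightedHomogeneousComponent (wt : Var (Ix p κ) τ → ℕ) d f ∈ J)
    (σ : τ → MvPolynomial (Ix p κ) ℂ) (hσ : ∀ s, (σ s).IsHomogeneous 2)
    (hσF : aeval (Sum.elim X σ : Var (Ix p κ) τ → MvPolynomial (Ix p κ) ℂ) F = 0)
    (hσd : ∀ y : Ix p κ → ℂ, y ≠ 0 →
      ∃ s, aeval (Sum.elim y (fun s => eval y (σ s)) : Var (Ix p κ) τ → ℂ) (pderiv (Sum.inr s) F) ≠ 0)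
    (σ' : τ → MvPolynomial (Fin (p + 1)) ℝ) (hσ' : ∀ s, (σ' s).IsHomogeneous 2)
    (hσσ' : ∀ s, aeval (inc X : Ix p κ → MvPolynomial (Fin (p + 1)) ℂ) (σ s) = map (algebraMap ℝ ℂ) (σ' s))
    (c : Fin (p + 1) → ℝ) (K : ℕ)
    (hK : ∀ a, (X a : MvPolynomial (Fin (p + 1)) ℝ) ^ K ∈
      Ideal.map (aeval (Sum.elim (inc X) σ' : Var (Ix p κ) τ → MvPolynomial (Fin (p + 1)) ℝ)).toRingHom J ⊔
        Ideal.span {∑ a, C (c a) * X a})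
    (ξ : Fin (p + 1) → ℝ) (hξ : ξ ≠ 0) (hξJ : IsZero J (inc ξ) (fun s => eval ξ (σ' s)))
    (huniq : ∀ x : Fin (p + 1) → ℝ, IsZero J (inc x) (fun s => eval x (σ' s)) → ∃ c : ℝ, x = c • ξ)
    (f : Fin p → MvPolynomial (Var (Ix p κ) τ) ℝ) (hf : ∀ j, f j ∈ J)
    (hloc : ∀ h ∈ J, ∃ δ : MvPolynomial (Var (Ix p κ) τ) ℝ,
      aeval (Sum.elim (inc ξ) (fun s => eval ξ (σ' s)) : Var (Ix p κ) τ → ℝ) δ ≠ 0 ∧
        δ * h ∈ Ideal.span (insert F (Set.range f)))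
    (hind : LinearIndependent ℝ (fun j : Fin p => fun a : Fin (p + 1) =>
      eval ξ (pderiv a (aeval (Sum.elim (inc X) σ' : Var (Ix p κ) τ → MvPolynomial (Fin (p + 1)) ℝ) (f j))))) :
    Nonempty (AOut F J σ) :=
  Pool.Agent.Helper1.BP.aMain hp F hF J hFJ hJ σ hσ hσF hσd σ' hσ' hσσ' c K hK ξ hξ hξJ huniq f hf hloc hind

end Pool.Agent.Helper72.BP
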