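import Pool.Agent.Helper72.BP.IfADefs
import Pool.Agent.Helper12.BP.Main
import Pool.Agent.Helper39.BPC.CMain

/-!
PROJECT BP, interface of the blocks K (owner helper12: Toeplitz operators) and C (complexes, owner helper39). See plan_BP.md, sections 2 and 3.
-/

set_option autoImplicit false

namespace Pool.Agent.Helper72.BP

/-- COROLLARY KC: the version with matrices and signs. -/
theorem corK (m p : ℕ) {a b : Type} [Fintype a] [Fintype b] [DecidableEq a] [DecidableEq b] (sa : a → ℤ) (sb : b → ℤ)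
    (ha : ∀ i, sa i = 1 ∨ sa i = -1) (hb : ∀ i, sb i = 1 ∨ sb i = -1)
    (g : (Fin m → ℂ) → Matrix b a ℂ) (hg : ContinuousOn g {z | ∑ i, ‖z i‖ ^ 2 = 1})
    (hinv : ∀ z, ∑ i, ‖z i‖ ^ 2 = 1 → Function.Bijective (g z).mulVec)
    (heq : ∀ z, ∑ i, ‖z i‖ ^ 2 = 1 → ∀ j i, g (fun a => Complex.I * z a) j i * (sa i : ℂ) = (sb j : ℂ) * g z j i)
    (c : ℤ) (hc : Odd c) (hsum : (∑ i, sa i) - ∑ j, sb j = 2 ^ p * c) : m ≤ 2 * p :=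
  Pool.Agent.Helper12.BP.corK m p sa sb ha hb g hg hinv heq c hc hsum

/-- BLOCK C. -/
theorem cMain (m p n L : ℕ) (hn : 1 ≤ n) (hL : n + 1 < L) (rk : ℕ → ℕ) (sg : (i : ℕ) → Fin (rk i) → ℤ)
    (hsg : ∀ i j, sg i j = 1 ∨ sg i j = -1)
    (D : (i : ℕ) → (Fin m → ℂ) → ℝ → Matrix (Fin (rk i)) (Fin (rk (i + 1))) ℂ)
    (hD : ∀ i ≤ n, ContinuousOn (fun x : (Fin m → ℂ) × ℝ => D i x.1 x.2)
      ({z | ∑ i, ‖z i‖ ^ 2 = 1} ×ˢ Set.Icc 0 1))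
    (hD0 : ∀ i, ContinuousOn (fun z => D i z 0) {z | ∑ i, ‖z i‖ ^ 2 = 1})
    (heq : ∀ i a b z s, ∑ i, ‖z i‖ ^ 2 = 1 → s ∈ Set.Icc (0 : ℝ) 1 →
      (i ≤ n ∨ s = 0) → D i (fun a => Complex.I * z a) s a b = (sg i a : ℂ) * D i z s a b * (sg (i + 1) b : ℂ))
    (X1 : ∀ z s, ∑ i, ‖z i‖ ^ 2 = 1 → s ∈ Set.Icc (0 : ℝ) 1 → ∀ i, i + 1 = n → Exact2 (D i z s) (D (i + 1) z s))
    (X2s : ∀ z, ∑ i, ‖z i‖ ^ 2 = 1 → ∀ v, ∃ u, (D 0 z 1).mulVec u = v)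
    (X2 : ∀ z, ∑ i, ‖z i‖ ^ 2 = 1 → ∀ i < n, Exact2 (D i z 1) (D (i + 1) z 1))
    (X3 : ∀ z, ∑ i, ‖z i‖ ^ 2 = 1 → ∀ i, n ≤ i → i + 1 < L → Exact2 (D i z 0) (D (i + 1) z 0))
    (X3i : ∀ z, ∑ i, ‖z i‖ ^ 2 = 1 → ∀ i, i + 1 = L → ∀ u, (D i z 0).mulVec u = 0 → u = 0)
    (c : ℤ) (hc : Odd c)
    (P : ∑ i ∈ Finset.range (L + 1), (-1 : ℤ) ^ i * ∑ j, sg i j = 2 ^ p * c) : m ≤ 2 * p :=
  Pool.Agent.Helper39.BPC.cMain_of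
    (fun m p _ _ _ _ _ _ sa sb ha hb g hg hinv heq c hc hsum => corK m p sa sb ha hb g hg hinv heq c hc hsum)
    m p n L hn hL rk sg hsg D hD hD0 heq X1 X2s X2 X3 X3i c hc P

end Pool.Agent.Helper72.BP
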