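import Pool.Agent.Helper78.BPG.Main

/-!
PROJECT BP, interface of block G (generic real parameters). See plan_BP.md, section 5. Definitions: Defs2.lean. Proved in Pool/Agent/Helper78/BPG.
-/

set_option autoImplicit false

namespace Pool.Agent.Helper72.BP

open MvPolynomial

/-- BLOCK G. -/
theorem gMain {p m r : ℕ} {κ : Type} [Fintype κ] [DecidableEq κ] (G : Fin r → Matrix (Ix p κ) (Ix p κ) ℝ)
    (q : (Fin m → ℂ) → Ix p κ → ℝ) (ε : ℝ) (hT : IsTube G q ε)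
    (Z : Set ((Ix p κ → ℝ) × (Tx p r κ → ℝ))) (hZ : Z ⊆ Vt G ε)
    (hreg : ∀ x ∈ Z, ∃ f : Fin p → MvPolynomial (Var (Ix p κ) (Tx p r κ)) ℝ, (∀ j, f j ∈ coneIdeal Z) ∧
      LinearIndependent ℝ (Fin.cons (grad (Sum.elim x.1 x.2) (Fpol G ε)) (fun j => grad (Sum.elim x.1 x.2) (f j)) :
        Fin (p + 1) → (Var (Ix p κ) (Tx p r κ) → ℝ)))
    (I : Ideal (MvPolynomial (Var (Ix p κ) (Tx p r κ)) ℝ))
    (hI : ∀ f ∈ I, ∀ d, weightedHomogeneousComponent (wt : Var (Ix p κ) (Tx p r κ) → ℕ) d f ∈ I)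
    (hIZ : ∀ x ∈ Z, ∃ h ∈ I, aeval (Sum.elim x.1 x.2 : Var (Ix p κ) (Tx p r κ) → ℝ) h ≠ 0)
    (δ : ℝ) (hδ : 0 < δ) :
    ∃ (γ : Matrix (Ix p κ) (Ix p κ) ℝ) (W : Matrix (Tx p r κ) (Tx p r κ) ℝ) (c : Fin (p + 1) → ℝ) (K : ℕ),
      Near δ γ W ∧
      (∀ a, (X a : MvPolynomial (Fin (p + 1)) ℝ) ^ K ∈
        Ideal.map (aeval (Sum.elim (act γ (inc X)) (tR G ε γ W (inc X)) :
          Var (Ix p κ) (Tx p r κ) → MvPolynomial (Fin (p + 1)) ℝ)).toRingHom (coneIdeal Z) ⊔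
          Ideal.span {∑ a, C (c a) * X a}) ∧
      (∀ x : Fin (p + 1) → ℝ, x ≠ 0 →
        ¬ (IsZero (coneIdeal Z) (act γ (inc x)) (tR G ε γ W (inc x)) ∧
          IsZero I (act γ (inc x)) (tR G ε γ W (inc x)))) :=
  Pool.Agent.Helper78.BPG.gen G q ε hT Z hZ hreg I hI hIZ δ hδ

end Pool.Agent.Helper72.BP
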