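import Pool.Agent.Helper79.BP.T4Main
import Pool.Agent.Helper72.BP.TDefs

/-!
PROJECT BP, the bridge T4: t4_sub, t4_off, t4_reg, t4_I, t4_tan are proved by helper79 in Pool/Agent/Helper79/BP/T4Main.lean (namespace Pool.Agent.Helper79.BP).
-/
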