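import Pool.Agent.Helper72.BP.O.Act
import Pool.Agent.Helper72.BP.O.Hom
import Pool.Agent.Helper72.BP.O.Inv
import Pool.Agent.Helper72.BP.O.Tube
import Pool.Agent.Helper72.BP.O.Ne
import Pool.Agent.Helper72.BP.O.Lin
import Pool.Agent.Helper72.BP.O.Cone
import Pool.Agent.Helper72.BP.O.Dir
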