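import Pool.Agent.Helper72.BP.Obs
import Pool.Agent.Helper72.BP.IfT4
import Pool.Agent.Helper72.BP.T.One
import Pool.Agent.Helper72.BP.T.PushAll

/-!
PROJECT BP, interface between the statement (helper79) and the obstruction theorem: the block T (owner helper72).
The definitions (Amb, emb, Vemb, lift, S0, Lam, e0, IsM) are in TDefs.lean, the bridge T4 in IfT4.lean.
-/

set_option autoImplicit false

namespace Pool.Agent.Helper72.BP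

open MvPolynomial
open Pool.Agent.Helper79.BP

/-- BLOCK T, one transversal point. -/
theorem tOne {p m r : ℕ} (hp : 0 < p) {κ : Type} [Fintype κ] [DecidableEq κ]
    (G : Fin r → Matrix (Ix p κ) (Ix p κ) ℝ) (q : (Fin m → ℂ) → Ix p κ → ℝ) (ε : ℝ) (hT : IsTube G q ε)
    (a : Fin p → κ → ℝ) (M : Set (Amb (Ix p κ) (Tx p r κ) → ℝ)) (hM : IsM hp G q ε a M) (d : ℕ)
    (hd : d + p + 2 = Fintype.card (Ix p κ) + Fintype.card (Tx p r κ)) :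
    ∃ ε0 > 0, ∀ Φ : (Amb (Ix p κ) (Tx p r κ) → ℝ) → (Amb (Ix p κ) (Tx p r κ) → ℝ), ContDiff ℝ 1 Φ →
      (∀ x, ‖Φ x - x‖ ≤ ε0) → (∀ x, ‖fderiv ℝ Φ x - ContinuousLinearMap.id ℝ _‖ ≤ ε0) → (∀ x ∈ M, Φ x ∈ Vemb G ε) →
      IsNZ d (Φ '' M) → ∀ I : Ideal (MvPolynomial (Var (Ix p κ) (Tx p r κ)) ℝ),
      (∀ (y : Ix p κ → ℝ) (t : Tx p r κ → ℝ), nsq y = 1 → IsZero (coneIdeal (lift (Φ '' M))) y t → ¬ IsZero I y t →
        (y, t) ∈ lift (Φ '' M)) →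
      (∀ f ∈ I, ∀ n, weightedHomogeneousComponent (wt : Var (Ix p κ) (Tx p r κ) → ℕ) n f ∈ I) →
      ∃ δ > 0, ∀ γ W, Near δ γ W → OnePoint G ε (coneIdeal (lift (Φ '' M))) I γ W :=
  tOne' hp G q ε hT a M hM d hd

/-- BLOCK T, the push-off. -/
theorem tPush {p m r : ℕ} (hp : 0 < p) {κ : Type} [Fintype κ] [DecidableEq κ]
    (G : Fin r → Matrix (Ix p κ) (Ix p κ) ℝ) (q : (Fin m → ℂ) → Ix p κ → ℝ) (ε : ℝ) (hT : IsTube G q ε)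
    (a : Fin p → κ → ℝ) (M : Set (Amb (Ix p κ) (Tx p r κ) → ℝ)) (hM : IsM hp G q ε a M) (d : ℕ)
    (hd : d + p + 2 = Fintype.card (Ix p κ) + Fintype.card (Tx p r κ)) :
    ∃ ε0 > 0, ∀ φ : ℝ × (Amb (Ix p κ) (Tx p r κ) → ℝ) → (Amb (Ix p κ) (Tx p r κ) → ℝ), ContDiff ℝ 1 φ →
      (∀ t ∈ Set.Icc (0 : ℝ) 1, ∀ x, ‖φ (t, x) - x‖ ≤ ε0) →
      (∀ t ∈ Set.Icc (0 : ℝ) 1, ∀ x y, ‖(φ (t, x) - x) - (φ (t, y) - y)‖ ≤ ε0 * ‖x - y‖) →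
      (∀ t ∈ Set.Icc (0 : ℝ) 1, ∀ x ∈ M, φ (t, x) ∈ Vemb G ε) → (∀ x ∈ M, φ (0, x) = x) →
      IsNZ d ((fun x => φ (1, x)) '' M) →
      ∃ δ > 0, ∀ γ W, Near δ γ W → PushH G q ε (coneIdeal (lift ((fun x => φ (1, x)) '' M))) γ W :=
  tPush' hp G q ε hT a M hM d hd

end Pool.Agent.Helper72.BP
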