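import Pool.Agent.Helper72.BP.IfA
import Pool.Agent.Helper72.BP.IfCK
import Pool.Agent.Helper72.BP.IfG
import Pool.Agent.Helper72.BP.OLem
import Pool.Agent.Helper72.BP.TDefs

/-!
PROJECT BP: the OBSTRUCTION THEOREM (assembly of the blocks A, C, K, G, O). Inputs from topology: `OnePoint` and `PushH` (TDefs.lean).
-/

set_option autoImplicit false

namespace Pool.Agent.Helper72.BP

open MvPolynomial

private theorem obs_cast {σ : Type} (w : σ → ℝ) (f : MvPolynomial σ ℝ) :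
    aeval (fun x => (w x : ℂ)) f = ((aeval w f : ℝ) : ℂ) := by
  exact MvPolynomial.aeval_algebraMap_apply (A := ℝ) ℂ w f

private theorem obs_sum {ι τ : Type} (y : ι → ℝ) (t : τ → ℝ) :
    (fun x => ((Sum.elim y t x : ℝ) : ℂ)) = Sum.elim (fun i => (y i : ℂ)) (fun s => (t s : ℂ)) := by
  funext x
  cases x <;> rfl

private theorem obs_smul {ι τ : Type} [Fintype τ] (A : Matrix ι τ ℝ) (c : ℝ) (u : τ → ℝ) :
    act A (c • u) = c • act A u := by
  funext s
  simp only [act, Pi.smul_apply, smul_eq_mul, Finset.mul_sum, Algebra.algebraMap_self, RingHom.id_apply]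
  refine Finset.sum_congr rfl fun x _ => ?_
  ring

private theorem obs_neg {ι τ : Type} [Fintype τ] (A : Matrix ι τ ℝ) (u : τ → ℝ) :
    act A (-u) = -act A u := by
  funext s
  simp only [act, Pi.neg_apply, mul_neg, Finset.sum_neg_distrib]

/-- OBSTRUCTION THEOREM. -/
theorem obs {p m r : ℕ} (hp : 1 ≤ p) {κ : Type} [Fintype κ] [DecidableEq κ]
    (G : Fin r → Matrix (Ix p κ) (Ix p κ) ℝ)
    (q : (Fin m → ℂ) → Ix p κ → ℝ) (ε : ℝ) (hT : IsTube G q ε)
    (Z : Set ((Ix p κ → ℝ) × (Tx p r κ → ℝ))) (hZ : Z ⊆ Vt G ε)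
    (hreg : ∀ x ∈ Z, ∃ f : Fin p → MvPolynomial (Var (Ix p κ) (Tx p r κ)) ℝ, (∀ j, f j ∈ coneIdeal Z) ∧
      LinearIndependent ℝ (Fin.cons (grad (Sum.elim x.1 x.2) (Fpol G ε)) (fun j => grad (Sum.elim x.1 x.2) (f j)) :
        Fin (p + 1) → (Var (Ix p κ) (Tx p r κ) → ℝ)))
    (I : Ideal (MvPolynomial (Var (Ix p κ) (Tx p r κ)) ℝ))
    (hI : ∀ f ∈ I, ∀ d, weightedHomogeneousComponent (wt : Var (Ix p κ) (Tx p r κ) → ℕ) d f ∈ I)
    (hIZ : ∀ x ∈ Z, ∃ h ∈ I, aeval (Sum.elim x.1 x.2 : Var (Ix p κ) (Tx p r κ) → ℝ) h ≠ 0)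
    (δ : ℝ) (hδ : 0 < δ)
    (h1 : ∀ γ W, Near δ γ W → OnePoint G ε (coneIdeal Z) I γ W)
    (h2 : ∀ γ W, Near δ γ W → PushH G q ε (coneIdeal Z) γ W) : m ≤ 2 * p := by
  obtain ⟨δ1, hδ1, hid⟩ := tube_ident G q ε hT
  obtain ⟨δ2, hδ2, hinv⟩ := near_inv (p := p) (r := r) (κ := κ)
  obtain ⟨γ, W, c, K, hnear, hK, hno⟩ := gMain G q ε hT Z hZ hreg I hI hIZ (min δ (min δ1 δ2))
    (lt_min hδ (lt_min hδ1 hδ2))
  have hmono : ∀ {a b : ℝ}, a ≤ b → Near a γ W → Near b γ W := fun hab h =>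
    ⟨fun i j => (h.1 i j).trans_le hab, fun i j => (h.2.1 i j).trans_le hab, h.2.2⟩
  have hn0 : Near δ γ W := hmono (min_le_left _ _) hnear
  have hn1 : Near δ1 γ W := hmono ((min_le_right _ _).trans (min_le_left _ _)) hnear
  have hn2 : Near δ2 γ W := hmono ((min_le_right _ _).trans (min_le_right _ _)) hnear
  obtain ⟨hγ, hW, hcay, hcay'⟩ := hinv γ W hn2
  obtain ⟨ξ, hξ, hξJ, huniq, f, hf, hloc, hind⟩ := h1 γ W hn0
  obtain ⟨H, hHc, hHV, hHI, hH0, hH1⟩ := h2 γ W hn0
  set J := coneIdeal Z with hJdef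
  have hgg' : γ * γ⁻¹ = 1 := Matrix.mul_nonsing_inv γ hγ
  have hg'g : γ⁻¹ * γ = 1 := Matrix.nonsing_inv_mul γ hγ
  set F' : MvPolynomial (Var (Ix p κ) (Tx p r κ)) ℝ := lin γ (Fpol G ε) with hF'def
  set J' : Ideal (MvPolynomial (Var (Ix p κ) (Tx p r κ)) ℝ) :=
    Ideal.comap (lin (τ := Tx p r κ) γ⁻¹).toRingHom J with hJ'def
  have memJ' : ∀ f, f ∈ J' ↔ lin γ⁻¹ f ∈ J := fun f => Iff.rfl
  have linJ : ∀ g ∈ J, lin γ g ∈ J' := by
    intro g hg
    rw [memJ', lin_lin γ⁻¹ γ hgg']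
    exact hg
  have hJl : ∀ f ∈ J', ∃ g ∈ J, f = lin γ g := by
    intro f hf
    exact ⟨lin γ⁻¹ f, (memJ' f).1 hf, (lin_lin γ γ⁻¹ hg'g f).symm⟩
  have zeroJ : ∀ (y : Ix p κ → ℝ) (t : Tx p r κ → ℝ), IsZero J' y t ↔ IsZero J (act γ y) t := by
    intro y t
    constructor
    · intro h g hg
      rw [← aeval_lin]
      exact h _ (linJ g hg)
    · intro h f hf
      obtain ⟨g, hg, rfl⟩ := hJl f hf
      rw [aeval_lin]
      exact h g hg
  have hFh : IsWeightedHomogeneous (wt : Var (Ix p κ) (Tx p r κ) → ℕ) F' 4 := by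
    have h := weightedHomogeneousComponent_isWeightedHomogeneous (w := (wt : Var (Ix p κ) (Tx p r κ) → ℕ)) 4 F'
    have h2 := weightedHomogeneousComponent_of_mem (m := 4)
      ((mem_weightedHomogeneousSubmodule ℝ (wt : Var (Ix p κ) (Tx p r κ) → ℕ) 4 _).2 (Fpol_hom G ε))
    rw [if_pos rfl] at h2
    rw [hF'def, lin_comp, h2] at h
    exact h
  have hFJ : F' ∈ J' := linJ _ (Fpol_mem G ε Z hZ)
  have hJc : ∀ f ∈ J', ∀ d, weightedHomogeneousComponent (wt : Var (Ix p κ) (Tx p r κ) → ℕ) d f ∈ J' := by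
    intro f hf d
    rw [memJ', ← lin_comp]
    exact coneIdeal_comp Z _ ((memJ' f).1 hf) d
  have hσF : aeval (Sum.elim X (tC G ε γ W X) : Var (Ix p κ) (Tx p r κ) → MvPolynomial (Ix p κ) ℂ) F' = 0 := by
    rw [hF'def, aeval_lin, aeval_Fpol]
    exact hid γ W hn1 (MvPolynomial (Ix p κ) ℂ) X
  have evσ : ∀ (y : Ix p κ → ℂ) (s : Tx p r κ),
      eval y (tC G ε γ W (X : Ix p κ → MvPolynomial (Ix p κ) ℂ) s) = tC G ε γ W y s := by
    intro y s
    have h := tC_map (eval y) (fun a => by simp [MvPolynomial.algebraMap_apply])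
      (by simp [MvPolynomial.algebraMap_apply]) G ε γ W (X : Ix p κ → MvPolynomial (Ix p κ) ℂ) s
    simpa using h
  have hσd : ∀ y : Ix p κ → ℂ, y ≠ 0 → ∃ s, aeval (Sum.elim y (fun s => eval y (tC G ε γ W X s)) :
      Var (Ix p κ) (Tx p r κ) → ℂ) (pderiv (Sum.inr s) F') ≠ 0 := by
    intro y hy
    obtain ⟨s, hs⟩ := tC_ne G q ε hT γ W hcay y hy
    refine ⟨s, ?_⟩
    rw [hF'def, pderiv_lin_Fpol, map_mul, aeval_X, Sum.elim_inr, evσ]
    simpa using hs
  have evσ' : ∀ (x : Fin (p + 1) → ℝ) (s : Tx p r κ),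
      eval x (tR G ε γ W (inc X : Ix p κ → MvPolynomial (Fin (p + 1)) ℝ) s) = tR G ε γ W (inc x) s := by
    intro x s
    have h := tR_map (eval x) (fun a => by simp [MvPolynomial.algebraMap_eq]) G ε γ W
      (inc X : Ix p κ → MvPolynomial (Fin (p + 1)) ℝ) s
    have e : (fun i => eval x ((inc X : Ix p κ → MvPolynomial (Fin (p + 1)) ℝ) i)) = inc x := by
      funext i
      cases i <;> simp [inc]
    rw [e] at h
    exact h
  have hσσ' : ∀ s : Tx p r κ, aeval (inc X : Ix p κ → MvPolynomial (Fin (p + 1)) ℂ)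
      (tC G ε γ W (X : Ix p κ → MvPolynomial (Ix p κ) ℂ) s) =
      map (algebraMap ℝ ℂ) (tR G ε γ W (inc X : Ix p κ → MvPolynomial (Fin (p + 1)) ℝ) s) := by
    intro s
    have h := tC_map (aeval (inc X : Ix p κ → MvPolynomial (Fin (p + 1)) ℂ)).toRingHom
      (fun a => by simp [MvPolynomial.algebraMap_apply]) (by simp [MvPolynomial.algebraMap_apply])
      G ε γ W (X : Ix p κ → MvPolynomial (Ix p κ) ℂ) s
    have h' := tR_map (map (algebraMap ℝ ℂ) : MvPolynomial (Fin (p + 1)) ℝ →+* MvPolynomial (Fin (p + 1)) ℂ)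
      (fun a => by simp [MvPolynomial.algebraMap_apply, MvPolynomial.algebraMap_eq])
      G ε γ W (inc X : Ix p κ → MvPolynomial (Fin (p + 1)) ℝ) s
    rw [h']
    refine Eq.trans h ?_
    have e1 : (fun i => (aeval (inc X : Ix p κ → MvPolynomial (Fin (p + 1)) ℂ)).toRingHom
        ((X : Ix p κ → MvPolynomial (Ix p κ) ℂ) i)) = inc X := by
      funext i
      simp
    have e2 : (fun i => (map (algebraMap ℝ ℂ) : MvPolynomial (Fin (p + 1)) ℝ →+* _)
        ((inc X : Ix p κ → MvPolynomial (Fin (p + 1)) ℝ) i)) = inc X := by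
      funext i
      cases i <;> simp [inc]
    rw [e1, e2, tC_eq_tR]
    intro l
    exact qf_inc G hT.lin X l
  have hK' : ∀ a, (X a : MvPolynomial (Fin (p + 1)) ℝ) ^ K ∈
      Ideal.map (aeval (Sum.elim (inc X) (tR G ε γ W (inc X)) :
        Var (Ix p κ) (Tx p r κ) → MvPolynomial (Fin (p + 1)) ℝ)).toRingHom J' ⊔
        Ideal.span {∑ a, C (c a) * X a} := by
    intro a
    have hle : Ideal.map (aeval (Sum.elim (act γ (inc X)) (tR G ε γ W (inc X)) :
        Var (Ix p κ) (Tx p r κ) → MvPolynomial (Fin (p + 1)) ℝ)).toRingHom J ≤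
        Ideal.map (aeval (Sum.elim (inc X) (tR G ε γ W (inc X)) :
        Var (Ix p κ) (Tx p r κ) → MvPolynomial (Fin (p + 1)) ℝ)).toRingHom J' := by
      rw [Ideal.map_le_iff_le_comap]
      intro g hg
      rw [Ideal.mem_comap]
      have e : (aeval (Sum.elim (act γ (inc X)) (tR G ε γ W (inc X)) :
          Var (Ix p κ) (Tx p r κ) → MvPolynomial (Fin (p + 1)) ℝ)).toRingHom g =
          (aeval (Sum.elim (inc X) (tR G ε γ W (inc X)) :
          Var (Ix p κ) (Tx p r κ) → MvPolynomial (Fin (p + 1)) ℝ)).toRingHom (lin γ g) :=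
        (aeval_lin γ (inc X) (tR G ε γ W (inc X)) g).symm
      rw [e]
      exact Ideal.mem_map_of_mem _ (linJ g hg)
    have hle2 := sup_le_sup_right hle (Ideal.span {∑ a, C (c a) * X a})
    exact hle2 (hK a)
  have hξJ' : IsZero J' (inc ξ) (fun s => eval ξ (tR G ε γ W (inc X) s)) := by
    rw [zeroJ]
    have e : (fun s => eval ξ (tR G ε γ W (inc X : Ix p κ → MvPolynomial (Fin (p + 1)) ℝ) s)) =
        tR G ε γ W (inc ξ) := funext fun s => evσ' ξ s
    rw [e]
    exact hξJ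
  have huniq' : ∀ x : Fin (p + 1) → ℝ, IsZero J' (inc x) (fun s => eval x (tR G ε γ W (inc X) s)) →
      ∃ c : ℝ, x = c • ξ := by
    intro x hx
    by_cases hx0 : x = 0
    · exact ⟨0, by rw [hx0, zero_smul]⟩
    · have e : (fun s => eval x (tR G ε γ W (inc X : Ix p κ → MvPolynomial (Fin (p + 1)) ℝ) s)) =
          tR G ε γ W (inc x) := funext fun s => evσ' x s
      rw [zeroJ, e] at hx
      exact huniq x hx fun h => hno x hx0 ⟨hx, h⟩
  have hloc' : ∀ h ∈ J', ∃ d : MvPolynomial (Var (Ix p κ) (Tx p r κ)) ℝ,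
      aeval (Sum.elim (inc ξ) (fun s => eval ξ (tR G ε γ W (inc X) s)) : Var (Ix p κ) (Tx p r κ) → ℝ) d ≠ 0 ∧
        d * h ∈ Ideal.span (insert F' (Set.range fun j => lin γ (f j))) := by
    intro h hh
    obtain ⟨g, hg, rfl⟩ := hJl h hh
    obtain ⟨d, hd, hdg⟩ := hloc g hg
    refine ⟨lin γ d, ?_, ?_⟩
    · have e : (fun s => eval ξ (tR G ε γ W (inc X : Ix p κ → MvPolynomial (Fin (p + 1)) ℝ) s)) =
          tR G ε γ W (inc ξ) := funext fun s => evσ' ξ s
      rw [e, aeval_lin]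
      exact hd
    · have h3 := Ideal.mem_map_of_mem (lin (τ := Tx p r κ) γ).toRingHom hdg
      rw [Ideal.map_span, Set.image_insert_eq, ← Set.range_comp] at h3
      rw [← map_mul]
      exact h3
  have hind' : LinearIndependent ℝ (fun j : Fin p => fun a : Fin (p + 1) =>
      eval ξ (pderiv a (aeval (Sum.elim (inc X) (tR G ε γ W (inc X)) :
        Var (Ix p κ) (Tx p r κ) → MvPolynomial (Fin (p + 1)) ℝ) (lin γ (f j))))) := by
    have e : ∀ j, aeval (Sum.elim (inc X) (tR G ε γ W (inc X)) :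
        Var (Ix p κ) (Tx p r κ) → MvPolynomial (Fin (p + 1)) ℝ) (lin γ (f j)) =
        aeval (Sum.elim (act γ (inc X)) (tR G ε γ W (inc X)) :
        Var (Ix p κ) (Tx p r κ) → MvPolynomial (Fin (p + 1)) ℝ) (f j) := fun j => aeval_lin γ _ _ _
    simp only [e]
    exact hind
  obtain ⟨A⟩ := aMain hp F' hFh J' hFJ hJc (tC G ε γ W X) (fun s => tC_hom G ε γ W s) hσF hσd
    (tR G ε γ W (inc X)) (fun s => tR_hom G ε γ W s) hσσ' c K hK' ξ hξ hξJ' huniq'
    (fun j => lin γ (f j)) (fun j => linJ _ (hf j)) hloc' hind'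
  -- the family of matrices
  set y : (Fin m → ℂ) → ℝ → Ix p κ → ℝ := fun z s => act γ⁻¹ (H z s).1 with hydef
  set w : (Fin m → ℂ) → ℝ → Var (Ix p κ) (Tx p r κ) → ℝ := fun z s => Sum.elim (y z s) (H z s).2 with hwdef
  have hγy : ∀ z s, act γ (y z s) = (H z s).1 := by
    intro z s
    rw [hydef]
    simp only
    rw [act_act, hgg', act_one]
  have hHy : ContinuousOn (fun x : (Fin m → ℂ) × ℝ => y x.1 x.2) (Sph m ×ˢ Set.Icc 0 1) := by
    have h : Continuous (fun u : Ix p κ → ℝ => act γ⁻¹ u) := by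
      unfold act
      fun_prop
    exact h.comp_continuousOn (continuous_fst.comp_continuousOn hHc)
  have hHw : ContinuousOn (fun x : (Fin m → ℂ) × ℝ => w x.1 x.2) (Sph m ×ˢ Set.Icc 0 1) := by
    rw [continuousOn_pi]
    rintro (i | i)
    · exact (continuous_apply i).comp_continuousOn hHy
    · exact (continuous_apply i).comp_continuousOn (continuous_snd.comp_continuousOn hHc)
  have hyI : ∀ z ∈ Sph m, ∀ s ∈ Set.Icc (0 : ℝ) 1, y (fun a => Complex.I * z a) s = -y z s := by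
    intro z hz s hs
    rw [hydef]
    simp only
    rw [hHI z hz s hs, obs_neg]
  have hwI : ∀ z ∈ Sph m, ∀ s ∈ Set.Icc (0 : ℝ) 1,
      w (fun a => Complex.I * z a) s = fun x => (-1 : ℝ) ^ wt x * w z s x := by
    intro z hz s hs
    funext x
    rcases x with i | i
    · simp only [hwdef, Sum.elim_inl, hyI z hz s hs, Pi.neg_apply, wt, pow_one, neg_mul, one_mul]
    · simp only [hwdef, Sum.elim_inr, hHI z hz s hs, wt]
      norm_num
  have hy0 : ∀ z ∈ Sph m, ∀ s ∈ Set.Icc (0 : ℝ) 1, y z s ≠ 0 := by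
    intro z hz s hs h0
    have h1 := (hHV z hz s hs).1
    rw [← hγy z s, h0] at h1
    simp [nsq, act] at h1
  have hreg1 : ∀ z ∈ Sph m, ∀ s ∈ Set.Icc (0 : ℝ) 1, aeval (w z s) F' = 0 ∧
      ∃ v, aeval (w z s) (pderiv v F') ≠ 0 := by
    intro z hz s hs
    exact regular_point G q ε hT γ γ⁻¹ hgg' (H z s) (hHV z hz s hs)
  have h01 : (0 : ℝ) ∈ Set.Icc (0 : ℝ) 1 := ⟨le_refl _, zero_le_one⟩
  have h11 : (1 : ℝ) ∈ Set.Icc (0 : ℝ) 1 := ⟨zero_le_one, le_refl _⟩
  have hoff : ∀ z ∈ Sph m, ∃ f ∈ J', aeval (w z 1) f ≠ 0 := by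
    intro z hz
    obtain ⟨g, hg, hg1⟩ := hH1 z hz
    refine ⟨lin γ g, linJ g hg, ?_⟩
    rw [hwdef]
    simp only
    rw [aeval_lin, hγy]
    exact hg1
  -- at s = 0 the point is (y, σ(y))
  have hw0 : ∀ z ∈ Sph m, (fun x => ((w z 0 x : ℝ) : ℂ)) =
      Sum.elim (fun i => (y z 0 i : ℂ)) (fun s => eval (fun i => (y z 0 i : ℂ)) (tC G ε γ W X s)) := by
    intro z hz
    obtain ⟨c, hc, hc0⟩ := hH0 z hz
    have hyq : y z 0 = c • q z := by
      rw [hydef]
      simp only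
      rw [hc0]
      simp only
      rw [obs_smul, act_act, hg'g, act_one]
    rw [hwdef]
    simp only
    rw [obs_sum]
    congr 1
    funext s
    rw [evσ, tC_eq_tR]
    · have h := tR_map (algebraMap ℝ ℂ) (fun a => rfl) G ε γ W (y z 0) s
      have e2 : (H z 0).2 s = tR G ε γ W (y z 0) s := by
        rw [hyq, tR_smul, hc0]
      rw [e2]
      exact h
    · intro l
      have h := qf_map (algebraMap ℝ ℂ) (fun a => rfl) (G l) (y z 0)
      have e3 : qf (G l) (y z 0) = 0 := by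
        rw [hyq]
        have e4 : qf (G l) (c • q z) = c ^ 2 * qf (G l) (q z) := by
          simp only [qf, Pi.smul_apply, smul_eq_mul, Finset.mul_sum]
          refine Finset.sum_congr rfl fun i _ => Finset.sum_congr rfl fun j _ => ?_
          ring
        rw [e4, hT.g_q, mul_zero]
      rw [e3, map_zero] at h
      exact h.symm
  let D : (i : ℕ) → (Fin m → ℂ) → ℝ → Matrix (Fin (A.rk i)) (Fin (A.rk (i + 1))) ℂ := fun i z s =>
    if i ≤ A.n then evM (fun x => ((w z s x : ℝ) : ℂ)) (A.M i)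
    else (A.H i).map (eval (fun a => ((y z s a : ℝ) : ℂ)))
  have hDM : ∀ i ≤ A.n, ∀ z s, D i z s = evM (fun x => ((w z s x : ℝ) : ℂ)) (A.M i) := by
    intro i hi z s
    simp only [D, if_pos hi]
  have hDH : ∀ i, ∀ z ∈ Sph m, D i z 0 = (A.H i).map (eval (fun a => ((y z 0 a : ℝ) : ℂ))) := by
    intro i z hz
    by_cases hi : i ≤ A.n
    · rw [hDM i hi]
      ext a b
      simp only [evM, Matrix.map_apply]
      rw [A.H_eq i hi a b, hw0 z hz]
      have h := MvPolynomial.comp_aeval_apply (R := ℝ)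
        (Sum.elim X (tC G ε γ W X) : Var (Ix p κ) (Tx p r κ) → MvPolynomial (Ix p κ) ℂ)
        ((aeval (fun i => (y z 0 i : ℂ)) : MvPolynomial (Ix p κ) ℂ →ₐ[ℂ] ℂ).restrictScalars ℝ) (A.M i a b)
      have e : (fun i_1 => ((aeval (fun i => (y z 0 i : ℂ)) : MvPolynomial (Ix p κ) ℂ →ₐ[ℂ] ℂ).restrictScalars ℝ)
          ((Sum.elim X (tC G ε γ W X) : Var (Ix p κ) (Tx p r κ) → MvPolynomial (Ix p κ) ℂ) i_1)) =
          Sum.elim (fun i => (y z 0 i : ℂ)) (fun s => eval (fun i => (y z 0 i : ℂ)) (tC G ε γ W X s)) := by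
        funext x
        rcases x with x | x
        · simp
        · simp [MvPolynomial.coe_aeval_eq_eval]
      rw [e] at h
      rw [← h]
      simp [MvPolynomial.coe_aeval_eq_eval]
    · simp only [D, if_neg hi]
  obtain ⟨cc, hcc, hP⟩ := A.P
  refine cMain m p A.n A.L A.n_pos A.n_lt A.rk (fun i j => (-1) ^ A.deg i j)
    (fun i j => neg_one_pow_eq_or ℤ _) D ?_ ?_ ?_ ?_ ?_ ?_ ?_ ?_ cc hcc ?_
  · -- continuity
    intro i hi
    have hmat : Continuous (fun v : Var (Ix p κ) (Tx p r κ) → ℝ => evM (fun x => ((v x : ℝ) : ℂ)) (A.M i)) := by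
      refine continuous_matrix fun a b => ?_
      simp only [evM, Matrix.map_apply, obs_cast]
      exact Complex.continuous_ofReal.comp (by
        simpa [MvPolynomial.coe_aeval_eq_eval] using MvPolynomial.continuous_eval (A.M i a b))
    have h := hmat.comp_continuousOn hHw
    refine h.congr fun x _ => ?_
    exact hDM i hi x.1 x.2
  · intro i
    have hc1 : ContinuousOn (fun z : Fin m → ℂ => ((z, (0 : ℝ)) : (Fin m → ℂ) × ℝ)) (Sph m) := by fun_prop
    have h := hHy.comp hc1 (fun z hz => ⟨hz, h01⟩)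
    have hmat : Continuous (fun v : Ix p κ → ℝ => (A.H i).map (eval (fun a => ((v a : ℝ) : ℂ)))) := by
      refine continuous_matrix fun a b => ?_
      simp only [Matrix.map_apply]
      exact (MvPolynomial.continuous_eval (A.H i a b)).comp (by fun_prop)
    refine (hmat.comp_continuousOn h).congr fun z hz => ?_
    exact hDH i z hz
  · intro i a b z s hz hs his
    rcases Nat.lt_or_ge A.n i with hni | hni
    · have hs0 : s = 0 := by
        rcases his with h | h
        · omega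
        · exact h
      subst hs0
      have hIz : (fun a => Complex.I * z a) ∈ Sph m := by
        show ∑ i, ‖Complex.I * z i‖ ^ 2 = 1
        simpa using hz
      rw [hDH i _ hIz, hDH i z hz]
      simp only [Matrix.map_apply]
      have h := A.H_hom i a b (-1) (fun a => ((y z 0 a : ℝ) : ℂ)) (by norm_num)
      have e : ((-1 : ℂ) • fun a => ((y z 0 a : ℝ) : ℂ)) = fun a => ((y (fun a => Complex.I * z a) 0 a : ℝ) : ℂ) := by
        rw [hyI z hz 0 h01]
        funext a
        simp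
      rw [e] at h
      have h2 : ((-1 : ℂ) ^ A.deg i a) * (-1) ^ A.deg i a = 1 := by
        rw [← mul_pow]
        norm_num
      push_cast
      calc _ = eval (fun a => ((y (fun a => Complex.I * z a) 0 a : ℝ) : ℂ)) (A.H i a b) * (-1) ^ A.deg i a *
            (-1) ^ A.deg i a := by rw [mul_assoc, h2, mul_one]
        _ = _ := by
          rw [h]
          ring
    · rw [hDM i hni, hDM i hni]
      simp only [evM, Matrix.map_apply]
      rw [hwI z hz s hs]
      have h := A.M_hom i a b (-1) (w z s) (by norm_num)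
      rw [obs_cast, obs_cast]
      have h2 : ((-1 : ℝ) ^ A.deg i a) * (-1) ^ A.deg i a = 1 := by
        rw [← mul_pow]
        norm_num
      have h3 : aeval (fun x => (-1 : ℝ) ^ wt x * w z s x) (A.M i a b) =
          (-1) ^ A.deg i a * aeval (w z s) (A.M i a b) * (-1) ^ A.deg (i + 1) b := by
        calc _ = aeval (fun x => (-1 : ℝ) ^ wt x * w z s x) (A.M i a b) * (-1) ^ A.deg i a * (-1) ^ A.deg i a := by
              rw [mul_assoc, h2, mul_one]
          _ = _ := by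
            rw [h]
            ring
      rw [h3]
      push_cast
      ring
  · intro z s hz hs i hi
    rw [hDM i (by omega), hDM (i + 1) (by omega)]
    exact A.X1 (w z s) (hreg1 z hz s hs).1 (hreg1 z hz s hs).2 i hi
  · intro z hz v
    rw [hDM 0 (by omega)]
    exact A.X2s (w z 1) (hreg1 z hz 1 h11).1 (hoff z hz) v
  · intro z hz i hi
    rw [hDM i (by omega), hDM (i + 1) (by omega)]
    exact A.X2 (w z 1) (hreg1 z hz 1 h11).1 (hoff z hz) i hi
  · intro z hz i hi hi2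
    rw [hDH i z hz, hDH (i + 1) z hz]
    refine A.X3 _ ?_ i hi hi2
    intro h0
    apply hy0 z hz 0 h01
    funext a
    have := congrFun h0 a
    simpa using this
  · intro z hz i hi u hu
    rw [hDH i z hz] at hu
    refine A.X3i _ ?_ i hi u hu
    intro h0
    apply hy0 z hz 0 h01
    funext a
    have := congrFun h0 a
    simpa using this
  · exact hP

end Pool.Agent.Helper72.BP
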